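import Pool.Agent.H47.PF.Row
import Pool.Agent.H53.RQ.Defs

/-!
# The Pfaffian of a list

`pf_eq_pfs`: for an antisymmetric array the recursive Pfaffian of a list of length `2 r` is
`pfs / (2 ^ r * r!)`.
-/

set_option autoImplicit false
set_option linter.unusedSectionVars false

namespace Pool.Agent.H47.PF

open Equiv Finset

theorem getD_eraseIdx (l : List ℕ) (j i : ℕ) :
    (l.eraseIdx j).getD i 0 = if i < j then l.getD i 0 else l.getD (i + 1) 0 := by
  rw [List.getD_eq_getElem?_getD, List.getElem?_eraseIdx]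
  split_ifs with h
  · rw [List.getD_eq_getElem?_getD]
  · rw [List.getD_eq_getElem?_getD]

theorem val_succAbove {m : ℕ} (q : Fin (m + 1)) (i : Fin m) :
    ((q.succAbove i : Fin (m + 1)) : ℕ) = if (i : ℕ) < q then (i : ℕ) else (i : ℕ) + 1 := by
  by_cases h : (i : ℕ) < q
  · rw [if_pos h, Fin.succAbove_of_castSucc_lt _ _ (Fin.lt_def.2 h)]
    rfl
  · rw [if_neg h, Fin.succAbove_of_le_castSucc _ _ (Fin.le_def.2 (not_lt.1 h))]
    rfl

theorem pf_eq_pfs (A : ℕ → ℕ → ℝ) (hA : ∀ k m, A k m = -A m k) : ∀ (r : ℕ) (l : List ℕ),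
    l.length = 2 * r → Pool.H53.RQ.pf A l =
      pfs (n := r) (fun i j => A (l.getD i 0) (l.getD j 0)) / (2 ^ r * (r.factorial : ℝ)) := by
  intro r
  induction r with
  | zero =>
    intro l hl
    have : l = [] := List.length_eq_zero_iff.1 (by omega)
    subst this
    rw [Pool.H53.RQ.pf]
    unfold pfs
    simp
  | succ r ih =>
    intro l hl
    cases l with
    | nil => simp at hl
    | cons a l' =>
      have hl' : l'.length = 2 * r + 1 := by
        rw [List.length_cons] at hl
        omega
      rw [Pool.H53.RQ.pf]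
      have h1 := pfs_succ (R := ℝ) (n := r)
        (fun i j => A ((a :: l').getD i 0) ((a :: l').getD j 0)) (fun i j => hA _ _)
      have h2 : pfs (n := r + 1) (fun i j => A ((a :: l').getD i 0) ((a :: l').getD j 0)) =
          (2 * (r + 1) : ℕ) * ∑ q : Fin (2 * r + 1), (-1) ^ (q : ℕ) * A a (l'.getD q 0) *
            pfs (n := r) (fun i j => A ((l'.eraseIdx q).getD i 0) ((l'.eraseIdx q).getD j 0)) := by
        refine h1.trans ?_
        congr 1
        refine sum_congr rfl fun q _ => ?_
        have e1 : (a :: l').getD ((0 : Fin (2 * r + 1 + 1)) : ℕ) 0 = a := rfl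
        have e2 : (a :: l').getD ((q.succ : Fin (2 * r + 1 + 1)) : ℕ) 0 = l'.getD q 0 := by
          rw [Fin.val_succ, List.getD_cons_succ]
        have e3 : ∀ i : Fin (2 * r), (a :: l').getD (((q.succAbove i).succ : Fin (2 * r + 1 + 1)) : ℕ) 0 =
            (l'.eraseIdx q).getD i 0 := by
          intro i
          rw [Fin.val_succ, List.getD_cons_succ, getD_eraseIdx, val_succAbove]
          split_ifs <;> rfl
        rw [e1, e2]
        congr 1
        congr 1
        funext i j
        rw [e3, e3]
      rw [h2]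
      have h3 : ∑ j : Fin l'.length, (-1 : ℝ) ^ (j : ℕ) * A a (l'.get j) *
          Pool.H53.RQ.pf A (l'.eraseIdx j) = ∑ q : Fin (2 * r + 1), (-1) ^ (q : ℕ) * A a (l'.getD q 0) *
            (pfs (n := r) (fun i j => A ((l'.eraseIdx q).getD i 0) ((l'.eraseIdx q).getD j 0)) /
              (2 ^ r * (r.factorial : ℝ))) := by
        refine Fintype.sum_equiv (finCongr hl') _ _ fun j => ?_
        have e4 : ((finCongr hl' j : Fin (2 * r + 1)) : ℕ) = j := rfl
        rw [e4, ih (l'.eraseIdx j) (by rw [List.length_eraseIdx_of_lt j.2]; omega)]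
        have e5 : l'.get j = l'.getD j 0 := by
          rw [List.getD_eq_getElem _ _ j.2]
          rfl
        rw [e5]
      rw [h3, pow_succ, Nat.factorial_succ]
      have h4 : ∑ q : Fin (2 * r + 1), (-1 : ℝ) ^ (q : ℕ) * A a (l'.getD q 0) *
            (pfs (n := r) (fun i j => A ((l'.eraseIdx q).getD i 0) ((l'.eraseIdx q).getD j 0)) /
              (2 ^ r * (r.factorial : ℝ))) = (∑ q : Fin (2 * r + 1), (-1) ^ (q : ℕ) * A a (l'.getD q 0) *
            pfs (n := r) (fun i j => A ((l'.eraseIdx q).getD i 0) ((l'.eraseIdx q).getD j 0))) /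
              (2 ^ r * (r.factorial : ℝ)) := by
        rw [sum_div]
        exact sum_congr rfl fun q _ => by rw [mul_div_assoc]
      rw [h4]
      have h5 : (2 : ℝ) ^ r ≠ 0 := by positivity
      have h6 : (r.factorial : ℝ) ≠ 0 := by positivity
      have h7 : ((r : ℝ) + 1) ≠ 0 := by positivity
      push_cast
      field_simp

end Pool.Agent.H47.PF
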