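import Pool.Agent.H47.PF.Alt
import Mathlib.Data.Fin.Tuple.Sort
import Mathlib.Data.Fintype.Pi

/-!
# Sums with an antisymmetric factor

If `G (κ ∘ τ) = sign τ * G κ` then `∑ κ, c κ * G κ` is the sum over the strictly decreasing `κ` of
`(∑ τ, sign τ * c (κ ∘ τ)) * G κ`.
-/

set_option autoImplicit false
set_option linter.unusedSectionVars false

namespace Pool.Agent.H47.PF

open Equiv Finset

variable {R : Type} [CommRing R] [Algebra ℚ R]

theorem zero_of_neg {x : R} (h : x = -x) : x = 0 := by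
  have h3 : (2 : R) * x = 0 := by linear_combination h
  have h5 : (algebraMap ℚ R 2⁻¹) * (2 : R) = 1 := by
    have : (2 : R) = algebraMap ℚ R 2 := (map_ofNat (algebraMap ℚ R) 2).symm
    rw [this, ← map_mul]
    norm_num
  calc x = (algebraMap ℚ R 2⁻¹) * ((2 : R) * x) := by rw [← mul_assoc, h5, one_mul]
    _ = 0 := by rw [h3, mul_zero]

theorem anti_zero {l : ℕ} {A : Type} (G : (Fin l → A) → R)
    (hG : ∀ (κ : Fin l → A) (τ : Perm (Fin l)), G (κ ∘ τ) = sg R τ * G κ) {κ : Fin l → A}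
    (hκ : ¬ Function.Injective κ) : G κ = 0 := by
  rw [Function.Injective] at hκ
  push_neg at hκ
  obtain ⟨i, j, hij, hne⟩ := hκ
  have h1 := hG κ (swap i j)
  have h2 : κ ∘ swap i j = κ := by
    ext b
    rw [Function.comp_apply]
    rcases eq_or_ne b i with rfl | hb
    · rw [swap_apply_left, hij]
    · rcases eq_or_ne b j with rfl | hb'
      · rw [swap_apply_right, hij]
      · rw [swap_apply_of_ne_of_ne hb hb']
  rw [h2, sg_swap hne] at h1
  exact zero_of_neg (by linear_combination h1)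

theorem sum_group {l L : ℕ} (c G : (Fin l → Fin L) → R)
    (hG : ∀ (κ : Fin l → Fin L) (τ : Perm (Fin l)), G (κ ∘ τ) = sg R τ * G κ) :
    ∑ κ : Fin l → Fin L, c κ * G κ =
      ∑ κ ∈ univ.filter (fun κ : Fin l → Fin L => StrictAnti κ),
        (∑ τ : Perm (Fin l), sg R τ * c (κ ∘ τ)) * G κ := by
  classical
  have h1 : ∑ κ : Fin l → Fin L, c κ * G κ =
      ∑ κ ∈ univ.filter (fun κ : Fin l → Fin L => Function.Injective κ), c κ * G κ := by
    rw [sum_filter]
    refine sum_congr rfl fun κ _ => ?_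
    by_cases h : Function.Injective κ
    · rw [if_pos h]
    · rw [if_neg h, anti_zero G hG h, mul_zero]
  have h2 : ∀ κ : Fin l → Fin L, (∑ τ : Perm (Fin l), sg R τ * c (κ ∘ τ)) * G κ =
      ∑ τ : Perm (Fin l), c (κ ∘ τ) * G (κ ∘ τ) := by
    intro κ
    rw [sum_mul]
    refine sum_congr rfl fun τ _ => ?_
    rw [hG]
    ring
  rw [h1, sum_congr rfl fun κ _ => h2 κ, ← sum_product']
  symm
  refine sum_nbij' (fun p : (Fin l → Fin L) × Perm (Fin l) => p.1 ∘ p.2)
    (fun κ => (κ ∘ Tuple.sort (fun i => OrderDual.toDual (κ i)),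
      (Tuple.sort (fun i => OrderDual.toDual (κ i)))⁻¹)) ?_ ?_ ?_ ?_ ?_
  · intro p hp
    rw [mem_product, mem_filter] at hp
    rw [mem_filter]
    exact ⟨mem_univ _, hp.1.2.injective.comp p.2.injective⟩
  · intro κ hκ
    rw [mem_filter] at hκ
    rw [mem_product, mem_filter]
    refine ⟨⟨mem_univ _, ?_⟩, mem_univ _⟩
    have h3 : Monotone ((fun i => OrderDual.toDual (κ i)) ∘
        Tuple.sort (fun i => OrderDual.toDual (κ i))) := Tuple.monotone_sort _
    intro a b hab
    have h4 := h3 hab.le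
    have h5 : κ (Tuple.sort (fun i => OrderDual.toDual (κ i)) b) ≤
        κ (Tuple.sort (fun i => OrderDual.toDual (κ i)) a) := h4
    refine lt_of_le_of_ne h5 fun h => ?_
    exact hab.ne' ((Tuple.sort (fun i => OrderDual.toDual (κ i))).injective (hκ.2 h))
  · intro p hp
    rw [mem_product, mem_filter] at hp
    have hinj : Function.Injective (p.1 ∘ p.2) := hp.1.2.injective.comp p.2.injective
    have h3 : Monotone ((fun i => OrderDual.toDual ((p.1 ∘ p.2) i)) ∘ ⇑(p.2⁻¹)) := by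
      intro a b hab
      show OrderDual.toDual (p.1 (p.2 (p.2⁻¹ a))) ≤ OrderDual.toDual (p.1 (p.2 (p.2⁻¹ b)))
      have e1 : ∀ z, p.2 (p.2⁻¹ z) = z := fun z => p.2.apply_symm_apply z
      rw [e1, e1]
      exact hp.1.2.antitone hab
    have h4 := Tuple.comp_sort_eq_comp_iff_monotone.2 h3
    have h5 : p.2⁻¹ = Tuple.sort (fun i => OrderDual.toDual ((p.1 ∘ p.2) i)) := by
      ext a
      have h6 := congrFun h4 a
      have h7 : (p.1 ∘ p.2) (p.2⁻¹ a) =
          (p.1 ∘ p.2) (Tuple.sort (fun i => OrderDual.toDual ((p.1 ∘ p.2) i)) a) :=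
        (OrderDual.toDual_inj.1 h6)
      rw [hinj h7]
    refine Prod.ext ?_ ?_
    · show (p.1 ∘ p.2) ∘ Tuple.sort (fun i => OrderDual.toDual ((p.1 ∘ p.2) i)) = p.1
      rw [← h5]
      ext a
      simp
    · show (Tuple.sort (fun i => OrderDual.toDual ((p.1 ∘ p.2) i)))⁻¹ = p.2
      rw [← h5, inv_inv]
  · intro κ _
    ext a
    simp
  · intro p _
    rfl

end Pool.Agent.H47.PF
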