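import Pool.Agent.H47.PF.Tail
import Pool.Agent.H47.PF.Group

/-!
# The minor summation

`nim s x l κ` is the alternating sum of `∏ b < l, x (g b) ^ κ b` times the product of `s (g i) (g j)`
over `l ≤ i < j`. `pfs_minor`: with `Sch s` and `B i j = ∑ k m < L, a k m * x i ^ k * x j ^ m`, the
alternating sum `pfs (B + s)` is a sum over `r` and the strictly decreasing `κ : Fin (2 r) → Fin L` of
`pfs (a ∘ κ) * nim s x (2 r) κ`.
-/

set_option autoImplicit false
set_option linter.unusedSectionVars false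

namespace Pool.Agent.H47.PF

open Equiv Finset

variable {R : Type} [CommRing R]

/-- the alternating sum with a monomial in the first `l` variables -/
def nim {N : ℕ} (s : Fin N → Fin N → R) (x : Fin N → R) (l : ℕ) (hl : l ≤ N) (κ : Fin l → ℕ) : R :=
  alt (Equiv.refl (Fin N)) (fun g => (∏ b : Fin l, x (g (Fin.castLE hl b)) ^ κ b) * tp s l g)

/-- the permutation of the first variables -/
def hdPerm {N l : ℕ} (hl : l ≤ N) (τ : Perm (Fin l)) : Perm (Fin N) :=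
  (finSumFinEquiv.trans (finCongr (Nat.add_sub_cancel' hl))).permCongr
    (Equiv.Perm.sumCongr τ (1 : Perm (Fin (N - l))))

theorem sg_hdPerm {N l : ℕ} (hl : l ≤ N) (τ : Perm (Fin l)) : sg R (hdPerm hl τ) = sg R τ := by
  rw [hdPerm, sg_permCongr]
  unfold sg
  rw [Equiv.Perm.sign_sumCongr]
  simp

theorem hdPerm_castLE {N l : ℕ} (hl : l ≤ N) (τ : Perm (Fin l)) (b : Fin l) :
    hdPerm hl τ (Fin.castLE hl b) = Fin.castLE hl (τ b) := by
  have h : ∀ b : Fin l, Fin.castLE hl b =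
      (finSumFinEquiv.trans (finCongr (Nat.add_sub_cancel' hl))) (Sum.inl b) := by
    intro b
    apply Fin.ext
    simp
  rw [h, h, hdPerm, Equiv.permCongr_apply, Equiv.symm_apply_apply]
  rfl

theorem hdPerm_of_le {N l : ℕ} (hl : l ≤ N) (τ : Perm (Fin l)) (i : Fin N) (hi : l ≤ (i : ℕ)) :
    hdPerm hl τ i = i := by
  have h : i = (finSumFinEquiv.trans (finCongr (Nat.add_sub_cancel' hl)))
      (Sum.inr ⟨(i : ℕ) - l, by have := i.2; omega⟩) := by
    apply Fin.ext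
    simp
    omega
  conv_lhs => rw [h]
  conv_rhs => rw [h]
  rw [hdPerm, Equiv.permCongr_apply, Equiv.symm_apply_apply]
  rfl

theorem nim_comp {N : ℕ} (s : Fin N → Fin N → R) (x : Fin N → R) (l : ℕ) (hl : l ≤ N)
    (κ : Fin l → ℕ) (τ : Perm (Fin l)) : nim s x l hl (κ ∘ τ) = sg R τ * nim s x l hl κ := by
  unfold nim
  rw [← sg_inv τ, ← sg_hdPerm hl τ⁻¹, ← alt_comp]
  refine alt_congr _ fun g _ => ?_
  congr 1
  · rw [← Equiv.prod_comp τ (fun b => x ((g ∘ hdPerm hl τ⁻¹) (Fin.castLE hl b)) ^ κ b)]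
    refine prod_congr rfl fun b _ => ?_
    rw [Function.comp_apply, Function.comp_apply, hdPerm_castLE]
    have e1 : τ⁻¹ (τ b) = b := τ.symm_apply_apply b
    rw [e1]
  · unfold tp
    refine prod_congr rfl fun i _ => prod_congr rfl fun j _ => ?_
    by_cases h : l ≤ (i : ℕ) ∧ i < j
    · rw [if_pos h, if_pos h]
      have hj : l ≤ (j : ℕ) := by
        have := Fin.lt_def.1 h.2
        omega
      rw [Function.comp_apply, Function.comp_apply, hdPerm_of_le hl τ⁻¹ i h.1,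
        hdPerm_of_le hl τ⁻¹ j hj]
    · rw [if_neg h, if_neg h]

theorem prod_pairs {r : ℕ} (F : Fin (2 * r) → R) : ∏ b, F b = ∏ i : Fin r, F (p0 i) * F (p1 i) := by
  rw [← Equiv.prod_comp (pe r), Fintype.prod_prod_type]
  refine prod_congr rfl fun i _ => ?_
  rw [Fin.prod_univ_two, pe_zero, pe_one]

/-- functions on the pairs -/
def fnPairs (r : ℕ) (X : Type) : (Fin (2 * r) → X) ≃ (Fin r → X × X) :=
  ((Equiv.arrowCongr (pe r).symm (Equiv.refl X)).trans (Equiv.curry (Fin r) (Fin 2) X)).trans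
    (Equiv.arrowCongr (Equiv.refl (Fin r)) (finTwoArrowEquiv X))

theorem fnPairs_apply {r : ℕ} {X : Type} (κ : Fin (2 * r) → X) (i : Fin r) :
    fnPairs r X κ i = (κ (p0 i), κ (p1 i)) := by
  rw [← pe_zero, ← pe_one]
  rfl

theorem hd_expand {r k L : ℕ} (a : ℕ → ℕ → R) (x : Fin (2 * (r + k)) → R)
    (g : Fin (2 * (r + k)) → Fin (2 * (r + k))) :
    hd (fun i j => ∑ p : Fin L × Fin L, a p.1 p.2 * x i ^ (p.1 : ℕ) * x j ^ (p.2 : ℕ)) r g =
      ∑ κ : Fin (2 * r) → Fin L, (∏ i : Fin r, a (κ (p0 i)) (κ (p1 i))) *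
        ∏ b : Fin (2 * r), x (g (Fin.castLE (by omega) b)) ^ (κ b : ℕ) := by
  rw [hd_spl, Finset.prod_univ_sum, Fintype.piFinset_univ,
    ← Equiv.sum_comp (fnPairs r (Fin L))]
  refine sum_congr rfl fun κ _ => ?_
  rw [prod_pairs, ← prod_mul_distrib]
  refine prod_congr rfl fun i _ => ?_
  rw [fnPairs_apply]
  have h : ∀ b : Fin (2 * r), spl r k (Sum.inl b) = Fin.castLE (by omega) b := by
    intro b
    apply Fin.ext
    rw [spl_inl]
    rfl
  rw [h, h]
  ring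

/-- the minor summation -/
theorem alt_hd [Algebra ℚ R] {n L : ℕ} (a : ℕ → ℕ → R) (x : Fin (2 * n) → R)
    (s : Fin (2 * n) → Fin (2 * n) → R) {r : ℕ} (hr : 2 * r ≤ 2 * n) :
    alt (Equiv.refl _) (fun g : Fin (2 * n) → Fin (2 * n) =>
      hd (fun i j => ∑ p : Fin L × Fin L, a p.1 p.2 * x i ^ (p.1 : ℕ) * x j ^ (p.2 : ℕ)) r g *
        tp s (2 * r) g) =
      ∑ κ ∈ univ.filter (fun κ : Fin (2 * r) → Fin L => StrictAnti κ),
        pfs (fun i j => a (κ i) (κ j)) * nim s x (2 * r) hr (fun b => (κ b : ℕ)) := by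
  obtain ⟨k, rfl⟩ := Nat.exists_eq_add_of_le (Nat.le_of_mul_le_mul_left hr (by norm_num))
  have h1 := sum_group (R := R) (fun κ : Fin (2 * r) → Fin L => ∏ i : Fin r, a (κ (p0 i)) (κ (p1 i)))
    (fun κ => nim s x (2 * r) hr (fun b => (κ b : ℕ)))
    (fun κ τ => nim_comp s x (2 * r) hr (fun b => (κ b : ℕ)) τ)
  have h2 : ∑ κ ∈ univ.filter (fun κ : Fin (2 * r) → Fin L => StrictAnti κ),
        pfs (fun i j => a (κ i) (κ j)) * nim s x (2 * r) hr (fun b => (κ b : ℕ)) =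
      ∑ κ : Fin (2 * r) → Fin L, (∏ i : Fin r, a (κ (p0 i)) (κ (p1 i))) *
        nim s x (2 * r) hr (fun b => (κ b : ℕ)) := by
    rw [h1]
    rfl
  rw [h2]
  have h3 : ∀ κ : Fin (2 * r) → Fin L, (∏ i : Fin r, a (κ (p0 i)) (κ (p1 i))) *
      nim s x (2 * r) hr (fun b => (κ b : ℕ)) = alt (Equiv.refl _) (fun g =>
        (∏ i : Fin r, a (κ (p0 i)) (κ (p1 i))) *
          ((∏ b : Fin (2 * r), x (g (Fin.castLE hr b)) ^ (κ b : ℕ)) * tp s (2 * r) g)) := by
    intro κ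
    rw [alt_const_mul]
    rfl
  rw [sum_congr rfl fun κ _ => h3 κ, ← alt_sum]
  refine alt_congr _ fun g _ => ?_
  rw [hd_expand, sum_mul]
  exact sum_congr rfl fun κ _ => by ring

/-- the Pfaffian of `B + s` -/
theorem pfs_minor [Algebra ℚ R] {n L : ℕ} (a : ℕ → ℕ → R) (x : Fin (2 * n) → R)
    (s : Fin (2 * n) → Fin (2 * n) → R) (hs : Sch s) (c : ℕ → R)
    (hc : ∀ k, ((2 * k).factorial : R) * c k = 1) :
    pfs (fun i j => (∑ p : Fin L × Fin L, a p.1 p.2 * x i ^ (p.1 : ℕ) * x j ^ (p.2 : ℕ)) + s i j) =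
      ∑ r ∈ (range (n + 1)).attach, ((n.choose r * 2 ^ (n - r) * (n - r).factorial : ℕ) : R) *
        c (n - r) * ∑ κ ∈ univ.filter (fun κ : Fin (2 * r) → Fin L => StrictAnti κ),
          pfs (fun i j => a (κ i) (κ j)) * nim s x (2 * r)
            (Nat.mul_le_mul_left 2 (Nat.lt_succ_iff.1 (mem_range.1 r.2))) (fun b => (κ b : ℕ)) := by
  rw [pfs_add, ← sum_attach]
  refine sum_congr rfl fun r _ => ?_
  have hr : (r : ℕ) ≤ n := Nat.lt_succ_iff.1 (mem_range.1 r.2)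
  have h1 := alt_mix (fun i j => ∑ p : Fin L × Fin L,
    a p.1 p.2 * x i ^ (p.1 : ℕ) * x j ^ (p.2 : ℕ)) s hs hr
  rw [alt_hd a x s (Nat.mul_le_mul_left 2 hr)] at h1
  have h2 := congrArg (fun z => c (n - r) * z) h1
  rw [← mul_assoc, mul_comm (c (n - r)), hc, one_mul] at h2
  rw [h2]
  push_cast
  ring

end Pool.Agent.H47.PF
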