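import Pool.Agent.H47.PF.Defs
import Mathlib.GroupTheory.Perm.Sign
import Mathlib.Algebra.Algebra.Rat
import Mathlib.Data.Fintype.BigOperators
import Mathlib.Tactic

/-!
# Alternating sums over the bijections of two finite types

`alt e f = ∑ σ : Perm γ, sign σ * f (σ ∘ e)` for a bijection `e : β ≃ γ`. Composition of the argument
of `f` with a permutation of `β` multiplies the sum by its sign.
-/

set_option autoImplicit false
set_option linter.unusedSectionVars false

namespace Pool.Agent.H47.PF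

open Equiv Finset

variable {R : Type} [CommRing R] {β γ : Type} [Fintype β] [DecidableEq β] [Fintype γ] [DecidableEq γ]

/-- the sign as an element of the ring -/
def sg {γ : Type} [Fintype γ] [DecidableEq γ] (R : Type) [CommRing R] (σ : Perm γ) : R :=
  (((Equiv.Perm.sign σ : ℤˣ) : ℤ) : R)

theorem sg_mul (σ τ : Perm γ) : sg R (σ * τ) = sg R σ * sg R τ := by
  unfold sg
  rw [Equiv.Perm.sign_mul]
  push_cast
  ring

theorem sg_mul_self (σ : Perm γ) : sg R σ * sg R σ = 1 := by
  unfold sg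
  rw [← Int.cast_mul, ← Units.val_mul, Int.units_mul_self]
  simp

theorem sg_inv (σ : Perm γ) : sg R σ⁻¹ = sg R σ := by
  unfold sg
  rw [Equiv.Perm.sign_inv]

theorem sg_one : sg R (1 : Perm γ) = 1 := by
  unfold sg
  simp

theorem sg_swap {i j : γ} (h : i ≠ j) : sg R (swap i j) = -1 := by
  unfold sg
  rw [Equiv.Perm.sign_swap h]
  simp

theorem sg_permCongr (e : β ≃ γ) (ρ : Perm β) : sg R (e.permCongr ρ) = sg R ρ := by
  unfold sg
  rw [Equiv.Perm.sign_permCongr]

/-- the alternating sum over the bijections `σ ∘ e` -/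
def alt (e : β ≃ γ) (f : (β → γ) → R) : R := ∑ σ : Perm γ, sg R σ * f (σ ∘ e)

theorem alt_comp (e : β ≃ γ) (f : (β → γ) → R) (ρ : Perm β) :
    alt e (fun g => f (g ∘ ρ)) = sg R ρ * alt e f := by
  unfold alt
  rw [← Equiv.sum_comp (Equiv.mulRight (e.permCongr ρ)) (fun σ => sg R σ * f (σ ∘ e)), mul_sum]
  refine sum_congr rfl fun σ _ => ?_
  have h1 : (⇑(Equiv.mulRight (e.permCongr ρ) σ) ∘ ⇑e) = (⇑σ ∘ ⇑e) ∘ ⇑ρ := by
    ext b
    simp [Equiv.permCongr_apply]
  rw [h1, Equiv.coe_mulRight, sg_mul, sg_permCongr]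
  have h2 : sg R ρ * (sg R σ * sg R ρ * f ((⇑σ ∘ ⇑e) ∘ ⇑ρ)) =
      (sg R ρ * sg R ρ) * (sg R σ * f ((⇑σ ∘ ⇑e) ∘ ⇑ρ)) := by ring
  rw [h2, sg_mul_self, one_mul]

theorem alt_congr (e : β ≃ γ) {f f' : (β → γ) → R} (h : ∀ g, Function.Bijective g → f g = f' g) :
    alt e f = alt e f' := by
  unfold alt
  refine sum_congr rfl fun σ _ => ?_
  rw [h _ (σ.bijective.comp e.bijective)]

theorem alt_add (e : β ≃ γ) (f f' : (β → γ) → R) :
    alt e (fun g => f g + f' g) = alt e f + alt e f' := by
  unfold alt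
  rw [← sum_add_distrib]
  exact sum_congr rfl fun σ _ => mul_add _ _ _

theorem alt_neg (e : β ≃ γ) (f : (β → γ) → R) : alt e (fun g => -f g) = -alt e f := by
  unfold alt
  rw [← sum_neg_distrib]
  exact sum_congr rfl fun σ _ => mul_neg _ _

theorem alt_sub (e : β ≃ γ) (f f' : (β → γ) → R) :
    alt e (fun g => f g - f' g) = alt e f - alt e f' := by
  unfold alt
  rw [← sum_sub_distrib]
  exact sum_congr rfl fun σ _ => mul_sub _ _ _

theorem alt_const_mul (e : β ≃ γ) (c : R) (f : (β → γ) → R) :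
    alt e (fun g => c * f g) = c * alt e f := by
  unfold alt
  rw [mul_sum]
  exact sum_congr rfl fun σ _ => by ring

theorem alt_sum {I : Type} (s : Finset I) (e : β ≃ γ) (f : I → (β → γ) → R) :
    alt e (fun g => ∑ i ∈ s, f i g) = ∑ i ∈ s, alt e (f i) := by
  unfold alt
  rw [sum_comm]
  exact sum_congr rfl fun σ _ => mul_sum _ _ _

/-- a product with a symmetric factor -/
theorem alt_mul_symm (e : β ≃ γ) (c : R) (h f : (β → γ) → R)
    (hh : ∀ g, Function.Bijective g → h g = c) : alt e (fun g => h g * f g) = c * alt e f := by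
  rw [← alt_const_mul]
  exact alt_congr e fun g hg => by rw [hh g hg]

/-- the sum is zero when `f` does not change under a transposition -/
theorem alt_eq_zero [Algebra ℚ R] (e : β ≃ γ) (f : (β → γ) → R) {i j : β} (hij : i ≠ j)
    (h : ∀ g, f (g ∘ swap i j) = f g) : alt e f = 0 := by
  have h1 := alt_comp e f (swap i j)
  rw [sg_swap hij] at h1
  have h2 : alt e (fun g => f (g ∘ swap i j)) = alt e f := alt_congr e fun g _ => h g
  rw [h2] at h1
  have h3 : (2 : R) * alt e f = 0 := by linear_combination h1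
  have h4 : (algebraMap ℚ R 2⁻¹) * ((2 : R) * alt e f) = alt e f := by
    have h5 : (algebraMap ℚ R 2⁻¹) * (2 : R) = 1 := by
      have : (2 : R) = algebraMap ℚ R 2 := (map_ofNat (algebraMap ℚ R) 2).symm
      rw [this, ← map_mul]
      norm_num
    rw [← mul_assoc, h5, one_mul]
  rw [← h4, h3, mul_zero]

/-- average over a family of permutations of `β` -/
theorem alt_average {I : Type} [Fintype I] (e : β ≃ γ) (f : (β → γ) → R) (ρ : I → Perm β) :
    (Fintype.card I : R) * alt e f = alt e (fun g => ∑ i, sg R (ρ i) * f (g ∘ ρ i)) := by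
  rw [alt_sum]
  have h : ∀ i : I, alt e (fun g => sg R (ρ i) * f (g ∘ ρ i)) = alt e f := by
    intro i
    rw [alt_const_mul, alt_comp, ← mul_assoc, sg_mul_self, one_mul]
  rw [sum_congr rfl fun i _ => h i, sum_const, card_univ, nsmul_eq_mul]

/-- change of the reference bijection -/
theorem alt_trans {β' : Type} [Fintype β'] [DecidableEq β'] (d : β' ≃ β) (e : β ≃ γ)
    (f : (β' → γ) → R) : alt (d.trans e) f = alt e (fun g => f (g ∘ d)) := rfl

theorem pfs_eq_alt {n : ℕ} (A : Fin (2 * n) → Fin (2 * n) → R) :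
    pfs A = alt (Equiv.refl _) (fun g => ∏ i : Fin n, A (g (p0 i)) (g (p1 i))) := rfl

end Pool.Agent.H47.PF
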