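import Mathlib.GroupTheory.Perm.Fin
import Mathlib.LinearAlgebra.Matrix.Determinant.Basic

/-!
# Pfaffians as alternating sums

`pfs A` is `2 ^ n * n!` times the Pfaffian of the matrix `A` on `Fin (2 * n)`: the alternating sum over
all permutations of the products over the `n` pairs `(2 i, 2 i + 1)`. No symmetry of `A` is asked.
-/

set_option autoImplicit false

namespace Pool.Agent.H47.PF

open Equiv Finset

/-- the first element of the pair `i` -/
def p0 {n : ℕ} (i : Fin n) : Fin (2 * n) := ⟨2 * i, by omega⟩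

/-- the second element of the pair `i` -/
def p1 {n : ℕ} (i : Fin n) : Fin (2 * n) := ⟨2 * i + 1, by omega⟩

/-- `2 ^ n * n!` times the Pfaffian -/
def pfs {R : Type} [CommRing R] {n : ℕ} (A : Fin (2 * n) → Fin (2 * n) → R) : R :=
  ∑ σ : Perm (Fin (2 * n)), (((Equiv.Perm.sign σ : ℤˣ) : ℤ) : R) * ∏ i : Fin n, A (σ (p0 i)) (σ (p1 i))

end Pool.Agent.H47.PF
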