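import Pool.Agent.H47.PF.Alt

/-!
# The Pfaffian of a sum

`pfs_add`: `pfs (B + S)` is the sum over `r` of `n.choose r` times the alternating sum with `B` at the
first `r` pairs and `S` at the others.
-/

set_option autoImplicit false
set_option linter.unusedSectionVars false

namespace Pool.Agent.H47.PF

open Equiv Finset

variable {R : Type} [CommRing R]

/-- the pairs as a product type -/
def pe (n : ℕ) : Fin n × Fin 2 ≃ Fin (2 * n) :=
  (finProdFinEquiv : Fin n × Fin 2 ≃ Fin (n * 2)).trans (finCongr (mul_comm n 2))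

theorem pe_zero {n : ℕ} (i : Fin n) : pe n (i, 0) = p0 i := by
  apply Fin.ext
  simp [pe, p0, finProdFinEquiv]

theorem pe_one {n : ℕ} (i : Fin n) : pe n (i, 1) = p1 i := by
  apply Fin.ext
  simp [pe, p1, finProdFinEquiv]
  omega

/-- the permutation of the pairs -/
def pairPerm {n : ℕ} (π : Perm (Fin n)) : Perm (Fin (2 * n)) :=
  (pe n).permCongr (Equiv.prodCongrLeft fun _ : Fin 2 => π)

theorem pairPerm_p0 {n : ℕ} (π : Perm (Fin n)) (i : Fin n) : pairPerm π (p0 i) = p0 (π i) := by
  rw [← pe_zero, ← pe_zero, pairPerm, Equiv.permCongr_apply, Equiv.symm_apply_apply]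
  rfl

theorem pairPerm_p1 {n : ℕ} (π : Perm (Fin n)) (i : Fin n) : pairPerm π (p1 i) = p1 (π i) := by
  rw [← pe_one, ← pe_one, pairPerm, Equiv.permCongr_apply, Equiv.symm_apply_apply]
  rfl

theorem sg_pairPerm {n : ℕ} (π : Perm (Fin n)) : sg R (pairPerm π) = 1 := by
  rw [pairPerm, sg_permCongr]
  unfold sg
  rw [Equiv.Perm.sign_prodCongrLeft]
  simp

/-- a permutation which carries an initial segment onto a given finite set -/
theorem exists_perm {n : ℕ} (t : Finset (Fin n)) :
    ∃ π : Perm (Fin n), ∀ i : Fin n, (i : ℕ) < t.card ↔ π i ∈ t := by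
  have hc : Fintype.card {i : Fin n // (i : ℕ) < t.card} = Fintype.card {i : Fin n // i ∈ t} := by
    have h1 : t.card ≤ n := by simpa using t.card_le_univ
    rw [Fintype.card_coe, Fintype.card_subtype]
    have h2 : (univ.filter fun i : Fin n => (i : ℕ) < t.card).card = t.card := by
      rw [Fin.card_filter_val_lt]
      omega
    exact h2
  obtain ⟨e⟩ := Fintype.card_eq.1 hc
  refine ⟨Equiv.extendSubtype e, fun i => ⟨fun h => ?_, fun h => ?_⟩⟩
  · exact Equiv.extendSubtype_mem e i h
  · by_contra hn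
    exact Equiv.extendSubtype_not_mem e i hn h

/-- the product with `B` at the pairs in `t` and `S` at the others -/
def mixed {n : ℕ} {γ : Type} (B S : γ → γ → R) (t : Finset (Fin n)) (g : Fin (2 * n) → γ) : R :=
  ∏ i : Fin n, if i ∈ t then B (g (p0 i)) (g (p1 i)) else S (g (p0 i)) (g (p1 i))

/-- the product with `B` at the first `r` pairs and `S` at the others -/
def mix {n : ℕ} {γ : Type} (B S : γ → γ → R) (r : ℕ) (g : Fin (2 * n) → γ) : R :=
  ∏ i : Fin n, if (i : ℕ) < r then B (g (p0 i)) (g (p1 i)) else S (g (p0 i)) (g (p1 i))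

theorem alt_mixed {n : ℕ} (B S : Fin (2 * n) → Fin (2 * n) → R) (t : Finset (Fin n)) :
    alt (Equiv.refl _) (mixed B S t) = alt (Equiv.refl _) (mix (n := n) B S t.card) := by
  obtain ⟨π, hπ⟩ := exists_perm t
  have h1 : alt (Equiv.refl _) (fun g => mix (n := n) B S t.card (g ∘ pairPerm π)) =
      sg R (pairPerm π) * alt (Equiv.refl (Fin (2 * n))) (mix (n := n) B S t.card) :=
    alt_comp _ _ _
  rw [sg_pairPerm, one_mul] at h1
  rw [← h1]
  refine alt_congr _ fun g _ => ?_
  unfold mixed mix
  rw [← Equiv.prod_comp π]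
  refine prod_congr rfl fun i _ => ?_
  rw [Function.comp_apply, Function.comp_apply, pairPerm_p0, pairPerm_p1]
  by_cases hi : (i : ℕ) < t.card
  · rw [if_pos ((hπ i).1 hi), if_pos hi]
  · rw [if_neg (fun h => hi ((hπ i).2 h)), if_neg hi]

theorem pfs_add {n : ℕ} (B S : Fin (2 * n) → Fin (2 * n) → R) :
    pfs (fun i j => B i j + S i j) =
      ∑ r ∈ range (n + 1), (n.choose r : R) * alt (Equiv.refl _) (mix (n := n) B S r) := by
  have h1 : pfs (fun i j => B i j + S i j) =
      alt (Equiv.refl _) (fun g => ∑ t ∈ (univ : Finset (Fin n)).powerset, mixed B S t g) := by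
    rw [pfs_eq_alt]
    refine alt_congr _ fun g _ => ?_
    rw [Finset.prod_add]
    refine sum_congr rfl fun t _ => ?_
    unfold mixed
    rw [Finset.prod_ite]
    congr 1
    · congr 1
      ext i
      simp
    · congr 1
      ext i
      simp
  rw [h1, alt_sum, sum_congr rfl fun t _ => alt_mixed B S t,
    Finset.sum_powerset_apply_card (fun r => alt (Equiv.refl _) (mix (n := n) B S r))]
  rw [card_univ, Fintype.card_fin]
  exact sum_congr rfl fun r _ => by rw [nsmul_eq_mul]

end Pool.Agent.H47.PF
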