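import Pool.Agent.H47.PF.Pair

/-!
# Expansion of the alternating sum along the first row

`pfs_succ`: for an antisymmetric array,
`pfs M = 2 (r + 1) ∑ q, (-1) ^ q * M 0 (q + 1) * pfs (M without 0 and q + 1)`.
-/

set_option autoImplicit false
set_option linter.unusedSectionVars false

namespace Pool.Agent.H47.PF

open Equiv Finset

variable {R : Type} [CommRing R]

/-- the permutation with value `p` at `0` and `τ` on the rest -/
def cp {m : ℕ} (p : Fin (m + 1)) (τ : Perm (Fin m)) : Perm (Fin (m + 1)) :=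
  p.cycleRange.symm * Equiv.Perm.decomposeFin.symm (0, τ)

theorem cp_zero {m : ℕ} (p : Fin (m + 1)) (τ : Perm (Fin m)) : cp p τ 0 = p := by
  rw [cp, Equiv.Perm.mul_apply, Equiv.Perm.decomposeFin_symm_apply_zero, Fin.cycleRange_symm_zero]

theorem cp_succ {m : ℕ} (p : Fin (m + 1)) (τ : Perm (Fin m)) (x : Fin m) :
    cp p τ x.succ = p.succAbove (τ x) := by
  rw [cp, Equiv.Perm.mul_apply, Equiv.Perm.decomposeFin_symm_apply_succ, Equiv.swap_self,
    Equiv.refl_apply, Fin.cycleRange_symm_succ]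

theorem sg_cp {m : ℕ} (p : Fin (m + 1)) (τ : Perm (Fin m)) :
    sg R (cp p τ) = (-1) ^ (p : ℕ) * sg R τ := by
  rw [cp, sg_mul]
  congr 1
  · unfold sg
    rw [Equiv.Perm.sign_symm, Fin.sign_cycleRange]
    simp
  · unfold sg
    rw [Equiv.Perm.decomposeFin.symm_sign]
    simp

theorem sum_perm_succ {m : ℕ} (F : Perm (Fin (m + 1)) → R) :
    ∑ σ, F σ = ∑ p : Fin (m + 1), ∑ τ : Perm (Fin m), F (cp p τ) := by
  rw [← sum_product', univ_product_univ]
  symm
  refine Function.Bijective.sum_comp (e := fun x : Fin (m + 1) × Perm (Fin m) => cp x.1 x.2) ?_ F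
  rw [Fintype.bijective_iff_injective_and_card]
  constructor
  · rintro ⟨p, τ⟩ ⟨p', τ'⟩ h
    have h' : cp p τ = cp p' τ' := h
    have h0 : p = p' := by rw [← cp_zero p τ, h', cp_zero]
    subst h0
    have h1 : τ = τ' := by
      ext x
      have := congrArg (fun σ : Perm (Fin (m + 1)) => σ x.succ) h'
      simp only [cp_succ] at this
      rw [Fin.succAbove_right_injective this]
    rw [h1]
  · rw [Fintype.card_prod, Fintype.card_perm, Fintype.card_perm, Fintype.card_fin, Fintype.card_fin,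
      Nat.factorial_succ]

/-- the sum over the permutations with `σ b = 0` -/
def at0 {n : ℕ} (M : Fin (2 * (n + 1)) → Fin (2 * (n + 1)) → R) (b : Fin (2 * (n + 1))) : R :=
  ∑ σ : Perm (Fin (2 * (n + 1))), if σ b = 0 then
    sg R σ * ∏ i : Fin (n + 1), M (σ (p0 i)) (σ (p1 i)) else 0

theorem sum_at0 {n : ℕ} (M : Fin (2 * (n + 1)) → Fin (2 * (n + 1)) → R) :
    pfs M = ∑ b, at0 M b := by
  unfold at0
  rw [sum_comm]
  unfold pfs
  refine sum_congr rfl fun σ _ => ?_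
  rw [sum_eq_single (σ.symm 0)]
  · rw [if_pos (σ.apply_symm_apply 0)]
    rfl
  · intro b _ hb
    rw [if_neg]
    intro h
    exact hb (by rw [← h, Equiv.symm_apply_apply])
  · intro h
    exact absurd (mem_univ _) h

theorem at0_comp {n : ℕ} (M : Fin (2 * (n + 1)) → Fin (2 * (n + 1)) → R)
    (ρ : Perm (Fin (2 * (n + 1))))
    (hρ : ∀ σ : Perm (Fin (2 * (n + 1))), sg R ρ * ∏ i : Fin (n + 1), M (σ (ρ (p0 i))) (σ (ρ (p1 i))) =
      ∏ i : Fin (n + 1), M (σ (p0 i)) (σ (p1 i))) (b : Fin (2 * (n + 1))) :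
    at0 M (ρ b) = at0 M b := by
  unfold at0
  rw [← Equiv.sum_comp (Equiv.mulRight ρ)
    (fun σ => if σ b = 0 then sg R σ * ∏ i : Fin (n + 1), M (σ (p0 i)) (σ (p1 i)) else 0)]
  refine sum_congr rfl fun σ _ => ?_
  rw [Equiv.coe_mulRight, Equiv.Perm.mul_apply]
  by_cases h : σ (ρ b) = 0
  · rw [if_pos h, if_pos h, sg_mul, mul_assoc]
    congr 1
    exact (hρ σ).symm
  · rw [if_neg h, if_neg h]

theorem at0_pair {n : ℕ} (M : Fin (2 * (n + 1)) → Fin (2 * (n + 1)) → R) (π : Perm (Fin (n + 1)))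
    (b : Fin (2 * (n + 1))) : at0 M (pairPerm π b) = at0 M b := by
  refine at0_comp M _ (fun σ => ?_) b
  rw [sg_pairPerm, one_mul, ← Equiv.prod_comp π (fun i => M (σ (p0 i)) (σ (p1 i)))]
  refine prod_congr rfl fun i _ => ?_
  rw [pairPerm_p0, pairPerm_p1]

theorem p0_ne_p1 {n : ℕ} (i j : Fin n) : p0 i ≠ p1 j := by
  intro h
  have := congrArg Fin.val h
  simp [p0, p1] at this
  omega

theorem p0_inj {n : ℕ} {i j : Fin n} (h : p0 i = p0 j) : i = j := by
  have := congrArg Fin.val h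
  simp [p0] at this
  exact Fin.ext this

theorem p1_inj {n : ℕ} {i j : Fin n} (h : p1 i = p1 j) : i = j := by
  have := congrArg Fin.val h
  simp [p1] at this
  exact Fin.ext this

theorem at0_swap {n : ℕ} (M : Fin (2 * (n + 1)) → Fin (2 * (n + 1)) → R)
    (hM : ∀ i j, M i j = -M j i) (k : Fin (n + 1)) : at0 M (p1 k) = at0 M (p0 k) := by
  have h1 := at0_comp M (swap (p0 k) (p1 k)) (fun σ => ?_) (p0 k)
  · rw [swap_apply_left] at h1
    exact h1
  · rw [sg_swap (p0_ne_p1 k k)]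
    rw [← mul_prod_erase univ _ (mem_univ k), ← mul_prod_erase univ _ (mem_univ k)]
    rw [swap_apply_left, swap_apply_right]
    have h2 : ∏ i ∈ univ.erase k, M (σ (swap (p0 k) (p1 k) (p0 i))) (σ (swap (p0 k) (p1 k) (p1 i))) =
        ∏ i ∈ univ.erase k, M (σ (p0 i)) (σ (p1 i)) := by
      refine prod_congr rfl fun i hi => ?_
      rw [mem_erase] at hi
      rw [swap_apply_of_ne_of_ne (fun h => hi.1 (p0_inj h)) (p0_ne_p1 i k),
        swap_apply_of_ne_of_ne (p0_ne_p1 k i).symm (fun h => hi.1 (p1_inj h))]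
    rw [h2, hM (σ (p1 k)) (σ (p0 k))]
    ring

theorem exists_pair {n : ℕ} (b : Fin (2 * n)) : ∃ k : Fin n, b = p0 k ∨ b = p1 k := by
  have hb := b.2
  refine ⟨⟨(b : ℕ) / 2, by omega⟩, ?_⟩
  rcases Nat.mod_two_eq_zero_or_one (b : ℕ) with h | h
  · left
    apply Fin.ext
    simp [p0]
    omega
  · right
    apply Fin.ext
    simp [p1]
    omega

theorem at0_eq {n : ℕ} (M : Fin (2 * (n + 1)) → Fin (2 * (n + 1)) → R)
    (hM : ∀ i j, M i j = -M j i) (b : Fin (2 * (n + 1))) : at0 M b = at0 M (p0 0) := by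
  obtain ⟨k, hk⟩ := exists_pair b
  have h1 : at0 M (p0 k) = at0 M (p0 0) := by
    have := at0_pair M (swap 0 k) (p0 0)
    rw [pairPerm_p0, swap_apply_left] at this
    exact this
  rcases hk with rfl | rfl
  · exact h1
  · rw [at0_swap M hM, h1]

theorem pfs_eq_at0 {n : ℕ} (M : Fin (2 * (n + 1)) → Fin (2 * (n + 1)) → R)
    (hM : ∀ i j, M i j = -M j i) : pfs M = (2 * (n + 1) : ℕ) * at0 M (p0 0) := by
  rw [sum_at0, sum_congr rfl fun b _ => at0_eq M hM b, sum_const, card_univ, Fintype.card_fin,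
    nsmul_eq_mul]

theorem at0_expand {n : ℕ} (M : Fin (2 * (n + 1)) → Fin (2 * (n + 1)) → R) :
    at0 M (p0 0) = ∑ q : Fin (2 * n + 1), (-1) ^ (q : ℕ) * M (0 : Fin (2 * n + 1 + 1)) q.succ *
      pfs (fun i j : Fin (2 * n) => M (q.succAbove i).succ (q.succAbove j).succ) := by
  have h0 : (p0 (0 : Fin (n + 1)) : Fin (2 * (n + 1))) = (0 : Fin (2 * n + 1 + 1)) := rfl
  have e1 : at0 M (p0 0) = ∑ τ : Perm (Fin (2 * n + 1)), sg R τ *
      ∏ i : Fin (n + 1), M (cp (0 : Fin (2 * n + 1 + 1)) τ (p0 i)) (cp 0 τ (p1 i)) := by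
    unfold at0
    rw [h0]
    have e2 := sum_perm_succ (R := R) (m := 2 * n + 1) (fun σ => if σ 0 = 0 then
      sg R σ * ∏ i : Fin (n + 1), M (σ (p0 i)) (σ (p1 i)) else 0)
    refine e2.trans ?_
    rw [sum_eq_single (0 : Fin (2 * n + 1 + 1))]
    · refine sum_congr rfl fun τ _ => ?_
      rw [if_pos (cp_zero _ _), sg_cp]
      simp
    · intro p _ hp
      refine sum_eq_zero fun τ _ => ?_
      rw [cp_zero, if_neg hp]
    · intro h
      exact absurd (mem_univ _) h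
  rw [e1, sum_perm_succ (R := R) (m := 2 * n)]
  refine sum_congr rfl fun q _ => ?_
  unfold pfs
  rw [mul_sum]
  refine sum_congr rfl fun ρ _ => ?_
  rw [sg_cp, Fin.prod_univ_succ]
  have a1 : cp (0 : Fin (2 * n + 1 + 1)) (cp q ρ) (p0 (0 : Fin (n + 1))) = (0 : Fin (2 * n + 1 + 1)) :=
    cp_zero _ _
  have a2 : cp (0 : Fin (2 * n + 1 + 1)) (cp q ρ) (p1 (0 : Fin (n + 1))) = q.succ := by
    have : (p1 (0 : Fin (n + 1)) : Fin (2 * n + 1 + 1)) = (0 : Fin (2 * n + 1)).succ := rfl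
    rw [this, cp_succ, cp_zero]
    rfl
  have a3 : ∀ i : Fin n, cp (0 : Fin (2 * n + 1 + 1)) (cp q ρ) (p0 i.succ) =
      (q.succAbove (ρ (p0 i))).succ := by
    intro i
    have : (p0 i.succ : Fin (2 * n + 1 + 1)) = ((p0 i : Fin (2 * n)).succ).succ := by
      apply Fin.ext
      simp [p0]
      ring
    rw [this, cp_succ, cp_succ]
    rfl
  have a4 : ∀ i : Fin n, cp (0 : Fin (2 * n + 1 + 1)) (cp q ρ) (p1 i.succ) =
      (q.succAbove (ρ (p1 i))).succ := by
    intro i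
    have : (p1 i.succ : Fin (2 * n + 1 + 1)) = ((p1 i : Fin (2 * n)).succ).succ := by
      apply Fin.ext
      simp [p1]
      ring
    rw [this, cp_succ, cp_succ]
    rfl
  rw [a1, a2, prod_congr rfl fun i _ => by rw [a3 i, a4 i]]
  unfold sg
  ring

/-- expansion along the first row -/
theorem pfs_succ {n : ℕ} (M : Fin (2 * n + 1 + 1) → Fin (2 * n + 1 + 1) → R)
    (hM : ∀ i j, M i j = -M j i) :
    pfs (n := n + 1) M = (2 * (n + 1) : ℕ) * ∑ q : Fin (2 * n + 1), (-1) ^ (q : ℕ) * M 0 q.succ *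
      pfs (fun i j : Fin (2 * n) => M (q.succAbove i).succ (q.succAbove j).succ) := by
  rw [pfs_eq_at0 (n := n) M hM, at0_expand (n := n) M]

end Pool.Agent.H47.PF
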