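import Pool.Agent.H47.PF.Pair

/-!
# Averages over the last variables

`tp s l g` is the product of `s (g i) (g j)` over `l ≤ i < j`, `hd B r g` the product of `B` over the
first `r` pairs, `Sch s` the statement of Schur's Pfaffian for all subfamilies. `alt_mix`: with
`Sch s`, the product of `s` over the last pairs may be replaced by `tp`.
-/

set_option autoImplicit false
set_option linter.unusedSectionVars false

namespace Pool.Agent.H47.PF

open Equiv Finset

variable {R : Type} [CommRing R] {γ : Type}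

/-- the product of `s (g i) (g j)` over `l ≤ i < j` -/
def tp {N : ℕ} (s : γ → γ → R) (l : ℕ) (g : Fin N → γ) : R :=
  ∏ i : Fin N, ∏ j : Fin N, if l ≤ (i : ℕ) ∧ i < j then s (g i) (g j) else 1

/-- the product of `B` over the first `r` pairs -/
def hd {n : ℕ} (B : γ → γ → R) (r : ℕ) (g : Fin (2 * n) → γ) : R :=
  ∏ i : Fin n, if (i : ℕ) < r then B (g (p0 i)) (g (p1 i)) else 1

/-- the product of `s` over the pairs from `r` on -/
def tl {n : ℕ} (s : γ → γ → R) (r : ℕ) (g : Fin (2 * n) → γ) : R :=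
  ∏ i : Fin n, if (i : ℕ) < r then 1 else s (g (p0 i)) (g (p1 i))

/-- Schur's Pfaffian for all subfamilies -/
def Sch (s : γ → γ → R) : Prop :=
  ∀ (k : ℕ) (e : Fin (2 * k) → γ), Function.Injective e →
    pfs (fun a b => s (e a) (e b)) = 2 ^ k * (k.factorial : R) * tp s 0 e

theorem mix_eq {n : ℕ} (B s : γ → γ → R) (r : ℕ) (g : Fin (2 * n) → γ) :
    mix B s r g = hd B r g * tl s r g := by
  unfold mix hd tl
  rw [← prod_mul_distrib]
  refine prod_congr rfl fun i _ => ?_
  by_cases h : (i : ℕ) < r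
  · rw [if_pos h, if_pos h, if_pos h, mul_one]
  · rw [if_neg h, if_neg h, if_neg h, one_mul]

/-- the splitting of the indices -/
def spl (r k : ℕ) : Fin (2 * r) ⊕ Fin (2 * k) ≃ Fin (2 * (r + k)) :=
  finSumFinEquiv.trans (finCongr (by ring))

theorem spl_inl {r k : ℕ} (a : Fin (2 * r)) : ((spl r k (Sum.inl a) : Fin (2 * (r + k))) : ℕ) = a := by
  simp [spl]

theorem spl_inr {r k : ℕ} (a : Fin (2 * k)) :
    ((spl r k (Sum.inr a) : Fin (2 * (r + k))) : ℕ) = 2 * r + a := by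
  simp [spl]

theorem p0_castAdd {r k : ℕ} (i : Fin r) :
    (p0 (Fin.castAdd k i) : Fin (2 * (r + k))) = spl r k (Sum.inl (p0 i)) := by
  apply Fin.ext
  rw [spl_inl]
  simp [p0]

theorem p1_castAdd {r k : ℕ} (i : Fin r) :
    (p1 (Fin.castAdd k i) : Fin (2 * (r + k))) = spl r k (Sum.inl (p1 i)) := by
  apply Fin.ext
  rw [spl_inl]
  simp [p1]

theorem p0_natAdd {r k : ℕ} (i : Fin k) :
    (p0 (Fin.natAdd r i) : Fin (2 * (r + k))) = spl r k (Sum.inr (p0 i)) := by
  apply Fin.ext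
  rw [spl_inr]
  simp [p0]
  ring

theorem p1_natAdd {r k : ℕ} (i : Fin k) :
    (p1 (Fin.natAdd r i) : Fin (2 * (r + k))) = spl r k (Sum.inr (p1 i)) := by
  apply Fin.ext
  rw [spl_inr]
  simp [p1]
  ring

theorem hd_spl {r k : ℕ} (B : γ → γ → R) (g : Fin (2 * (r + k)) → γ) :
    hd B r g = ∏ i : Fin r, B (g (spl r k (Sum.inl (p0 i)))) (g (spl r k (Sum.inl (p1 i)))) := by
  unfold hd
  rw [Fin.prod_univ_add]
  have h1 : ∏ i : Fin k, (if ((Fin.natAdd r i : Fin (r + k)) : ℕ) < r then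
      B (g (p0 (Fin.natAdd r i))) (g (p1 (Fin.natAdd r i))) else 1) = 1 := by
    refine prod_eq_one fun i _ => ?_
    rw [if_neg]
    simp
  rw [h1, mul_one]
  refine prod_congr rfl fun i _ => ?_
  rw [if_pos (by simp), p0_castAdd, p1_castAdd]

theorem tl_spl {r k : ℕ} (s : γ → γ → R) (g : Fin (2 * (r + k)) → γ) :
    tl s r g = ∏ i : Fin k, s (g (spl r k (Sum.inr (p0 i)))) (g (spl r k (Sum.inr (p1 i)))) := by
  unfold tl
  rw [Fin.prod_univ_add]
  have h1 : ∏ i : Fin r, (if ((Fin.castAdd k i : Fin (r + k)) : ℕ) < r then (1 : R) else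
      s (g (p0 (Fin.castAdd k i))) (g (p1 (Fin.castAdd k i)))) = 1 := by
    refine prod_eq_one fun i _ => ?_
    rw [if_pos]
    simp
  rw [h1, one_mul]
  refine prod_congr rfl fun i _ => ?_
  rw [if_neg (by simp), p0_natAdd, p1_natAdd]

theorem tp_spl {r k : ℕ} (s : γ → γ → R) (g : Fin (2 * (r + k)) → γ) :
    tp s (2 * r) g = tp s 0 (fun a : Fin (2 * k) => g (spl r k (Sum.inr a))) := by
  unfold tp
  rw [← Equiv.prod_comp (spl r k), Fintype.prod_sum_type]
  have h1 : ∏ a : Fin (2 * r), ∏ j : Fin (2 * (r + k)),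
      (if 2 * r ≤ ((spl r k (Sum.inl a) : Fin (2 * (r + k))) : ℕ) ∧ spl r k (Sum.inl a) < j then
        s (g (spl r k (Sum.inl a))) (g j) else 1) = 1 := by
    refine prod_eq_one fun a _ => prod_eq_one fun j _ => ?_
    rw [if_neg]
    rw [spl_inl]
    have := a.2
    omega
  rw [h1, one_mul]
  refine prod_congr rfl fun a _ => ?_
  rw [← Equiv.prod_comp (spl r k), Fintype.prod_sum_type]
  have h2 : ∏ b : Fin (2 * r), (if 2 * r ≤ ((spl r k (Sum.inr a) : Fin (2 * (r + k))) : ℕ) ∧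
      spl r k (Sum.inr a) < spl r k (Sum.inl b) then
        s (g (spl r k (Sum.inr a))) (g (spl r k (Sum.inl b))) else 1) = 1 := by
    refine prod_eq_one fun b _ => ?_
    rw [if_neg]
    rintro ⟨_, h⟩
    rw [Fin.lt_def, spl_inr, spl_inl] at h
    have := b.2
    omega
  rw [h2, one_mul]
  refine prod_congr rfl fun b _ => ?_
  congr 1
  rw [Fin.lt_def, spl_inr, spl_inr, Fin.lt_def]
  apply propext
  constructor
  · rintro ⟨_, h⟩
    exact ⟨Nat.zero_le _, by omega⟩
  · rintro ⟨_, h⟩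
    exact ⟨by omega, by omega⟩

/-- the permutation of the last variables -/
def tlPerm (r k : ℕ) (v : Perm (Fin (2 * k))) : Perm (Fin (2 * (r + k))) :=
  (spl r k).permCongr (Equiv.sumCongr (1 : Perm (Fin (2 * r))) v)

theorem tlPerm_inl {r k : ℕ} (v : Perm (Fin (2 * k))) (a : Fin (2 * r)) :
    tlPerm r k v (spl r k (Sum.inl a)) = spl r k (Sum.inl a) := by
  rw [tlPerm, Equiv.permCongr_apply, Equiv.symm_apply_apply]
  rfl

theorem tlPerm_inr {r k : ℕ} (v : Perm (Fin (2 * k))) (a : Fin (2 * k)) :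
    tlPerm r k v (spl r k (Sum.inr a)) = spl r k (Sum.inr (v a)) := by
  rw [tlPerm, Equiv.permCongr_apply, Equiv.symm_apply_apply]
  rfl

theorem sg_tlPerm {r k : ℕ} (v : Perm (Fin (2 * k))) : sg R (tlPerm r k v) = sg R v := by
  rw [tlPerm, sg_permCongr]
  unfold sg
  have h : Equiv.sumCongr (1 : Perm (Fin (2 * r))) v = Equiv.Perm.sumCongr 1 v := rfl
  rw [h, Equiv.Perm.sign_sumCongr]
  simp

theorem alt_mix {n : ℕ} (B s : Fin (2 * n) → Fin (2 * n) → R) (hs : Sch s) {r : ℕ} (hr : r ≤ n) :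
    ((2 * (n - r)).factorial : R) * alt (Equiv.refl _) (mix (n := n) B s r) =
      2 ^ (n - r) * ((n - r).factorial : R) *
        alt (Equiv.refl _) (fun g => hd B r g * tp s (2 * r) g) := by
  obtain ⟨k, rfl⟩ := Nat.exists_eq_add_of_le hr
  rw [Nat.add_sub_cancel_left]
  have h1 := alt_average (Equiv.refl (Fin (2 * (r + k)))) (mix B s r)
    (fun v : Perm (Fin (2 * k)) => tlPerm r k v)
  rw [Fintype.card_perm, Fintype.card_fin] at h1
  rw [h1, ← alt_const_mul]
  refine alt_congr _ fun g hg => ?_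
  have h2 : ∀ v : Perm (Fin (2 * k)), sg R (tlPerm r k v) * mix B s r (g ∘ tlPerm r k v) =
      hd B r g * (sg R v * ∏ i : Fin k, s (g (spl r k (Sum.inr (v (p0 i)))))
        (g (spl r k (Sum.inr (v (p1 i)))))) := by
    intro v
    rw [sg_tlPerm, mix_eq, hd_spl, hd_spl, tl_spl]
    simp only [Function.comp_apply, tlPerm_inl, tlPerm_inr]
    ring
  rw [sum_congr rfl fun v _ => h2 v, ← mul_sum, tp_spl]
  have h3 := hs k (fun a => g (spl r k (Sum.inr a)))
    (hg.1.comp ((spl r k).injective.comp Sum.inr_injective))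
  unfold pfs at h3
  unfold sg
  rw [h3]
  ring

end Pool.Agent.H47.PF
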